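import Pool.Agent.Helper89.A8.Stmts
import Pool.Agent.Helper89.A8.GTools

/-!
# A8-G26 : (G2)   (helper25)
-/

set_option autoImplicit false

namespace Pool.Agent.A8

open Matrix
open scoped commutatorElement

section G26

theorem g26_V : ∀ v : Fin 4 → ZMod 2, gs.1 *ᵥ v = v → gt.1 *ᵥ v = v →
    v = 0 ∨ v = ![1, 0, 0, 0] := by decide +kernel

theorem g26_L : ∀ l : V6, actL gs.1 l = l → actL gt.1 l = l := by decide +kernel

theorem g26_gh : gh.1 *ᵥ (![1, 0, 0, 0] : Fin 4 → ZMod 2) = ![1, 0, 0, 0] := by decide +kernel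

theorem g26_gtgt : gt * gt = 1 := by
  apply Units.ext
  decide

theorem g26_gh_ne : gh ≠ 1 := by
  intro h
  have h1 := congrArg (fun g : Gam => g.1 1 1) h
  revert h1
  decide

variable {G : Type} [Group G] {π : G →* Gam}

theorem g26_sq (hc : Cfg π) {ρ k : G} (h7 : ρ ^ 7 = 1) (hρ : π ρ = gh) (hk : k ∈ π.ker)
    (hcomm : k * ρ = ρ * k) : k * k = 1 := by
  have hne : ρ ≠ 1 := by
    rintro rfl
    rw [map_one] at hρ
    exact g26_gh_ne hρ.symm
  have : Fact (Nat.Prime 7) := ⟨by norm_num⟩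
  have ho : orderOf ρ = 7 := orderOf_eq_prime h7 hne
  obtain ⟨j, hj⟩ := hc.ker2 ⟨k, hk⟩
  have hj' : k ^ 2 ^ j = 1 := congrArg Subtype.val hj
  have hdvd : orderOf k ∣ 2 ^ j := orderOf_dvd_of_pow_eq_one hj'
  obtain ⟨i, -, hi⟩ := (Nat.dvd_prime_pow Nat.prime_two).mp hdvd
  rcases Nat.lt_or_ge i 2 with h2 | h2
  · have h3 : orderOf k ∣ 2 := by
      rw [hi]
      interval_cases i <;> norm_num
    have h4 := orderOf_dvd_iff_pow_eq_one.mp h3
    rw [← sq]; exact h4
  · exfalso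
    -- an element of order 4
    have h3 : orderOf (k ^ 2 ^ (i - 2)) = 4 := by
      rw [orderOf_pow_of_dvd (by positivity) (by rw [hi]; exact pow_dvd_pow 2 (Nat.sub_le i 2)), hi]
      have : 2 ^ i = 2 ^ (i - 2) * 4 := by
        rw [show (4 : ℕ) = 2 ^ 2 by norm_num, ← pow_add]; congr 1; omega
      rw [this, Nat.mul_div_cancel_left _ (by positivity)]
    have hcm : Commute (k ^ 2 ^ (i - 2)) ρ := (show Commute k ρ from hcomm).pow_left _
    have h5 := hcm.orderOf_mul_eq_mul_orderOf_of_coprime (by rw [h3, ho]; norm_num)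
    rw [h3, ho] at h5
    exact hc.n28 _ h5

theorem g26_comm (hc : Cfg π) {ρ k k' : G} (h7 : ρ ^ 7 = 1) (hρ : π ρ = gh) (hk : k ∈ π.ker)
    (hk' : k' ∈ π.ker) (hcomm : k * ρ = ρ * k) (hcomm' : k' * ρ = ρ * k') : k * k' = k' * k := by
  have h1 := g26_sq hc h7 hρ hk hcomm
  have h2 := g26_sq hc h7 hρ hk' hcomm'
  have h3 := g26_sq hc h7 hρ (π.ker.mul_mem hk hk') (show (k * k') * ρ = ρ * (k * k') by
    rw [mul_assoc, hcomm', ← mul_assoc, hcomm, mul_assoc])
  have e1 : k⁻¹ = k := inv_eq_of_mul_eq_one_left h1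
  have e2 : k'⁻¹ = k' := inv_eq_of_mul_eq_one_left h2
  have e3 : (k * k')⁻¹ = k * k' := inv_eq_of_mul_eq_one_left h3
  rw [_root_.mul_inv_rev, e1, e2] at e3
  exact e3.symm

theorem g26_zpowers {N : Subgroup G} (hN : N.Normal) {ρ x : G}
    (h : x⁻¹ * (ρ * x * ρ⁻¹) ∈ N) : ∀ g ∈ Subgroup.zpowers ρ, x⁻¹ * (g * x * g⁻¹) ∈ N := by
  have key : ∀ g : G, x⁻¹ * (g * x * g⁻¹) ∈ N ↔
      Commute (QuotientGroup.mk' N g) (QuotientGroup.mk' N x) := by
    intro g
    have hq : ∀ z : G, z ∈ N ↔ QuotientGroup.mk' N z = 1 := by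
      intro z
      rw [← MonoidHom.mem_ker, QuotientGroup.ker_mk']
    rw [hq]
    simp only [map_mul, map_inv]
    rw [inv_mul_eq_one]
    constructor
    · intro h1
      change _ * _ = _ * _
      rw [eq_mul_inv_iff_mul_eq] at h1
      exact h1.symm
    · intro h1
      rw [eq_mul_inv_iff_mul_eq]
      exact h1.symm
  intro g hg
  obtain ⟨m, rfl⟩ := Subgroup.mem_zpowers_iff.mp hg
  rw [key]
  rw [map_zpow]
  exact ((key ρ).mp h).zpow_left m

/-- coprime lift for an element of order 7 -/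
theorem g26_cop [Finite G] (h4 : S_COP) {N : Subgroup G} (hN : N.Normal) (hN2 : IsPGroup 2 N)
    {ρ x : G} (h7 : ρ ^ 7 = 1) (h : x⁻¹ * (ρ * x * ρ⁻¹) ∈ N) :
    ∃ n ∈ N, (x * n) * ρ = ρ * (x * n) := by
  have hodd : Odd (Nat.card (Subgroup.zpowers ρ)) := by
    rw [Nat.card_zpowers]
    exact Odd.of_dvd_nat (by decide : Odd 7) (orderOf_dvd_of_pow_eq_one h7)
  obtain ⟨n, hn, h1⟩ := h4 G (Subgroup.zpowers ρ) N inferInstance hodd hN2
    (fun g _ n hn => hN.conj_mem n hn g) x (g26_zpowers hN h)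
  refine ⟨n, hn, ?_⟩
  have h2 := h1 ρ (Subgroup.mem_zpowers ρ)
  rw [mul_inv_eq_iff_eq_mul] at h2
  exact h2.symm

theorem g26_p2 {N M : Subgroup G} (hM : IsPGroup 2 M) (h : N ≤ M) : IsPGroup 2 N :=
  hM.to_le h

theorem bG2 (h1 : S_STR) (h2 : S_L7) (h3 : S_MTG) (h4 : S_COP) (h5 : S_FROB) : S_G2 := by
  intro G _ _ π hc s u w x hs3 hπs hπu hus hw hws hx hφx
  obtain ⟨ρ, hρ⟩ := h5 G π hc s hs3 hπs
  have st := h1 G π hc
  have st0 := h2 G π hc
  obtain ⟨-, -, hM⟩ := h3 G π hc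
  have hKn : (Kt π .v).Normal := Kt_normal π .v
  have hCn : (CK π (Kt π .v)).Normal := CK_normal π hKn
  have hln : (Kt π .l).Normal := Kt_normal π .l
  have hVn : (rjT π .v (Kt π .v) ⊥).Normal := rjT_normal π .v hKn ⊥
  have hYn : (Kt π .l ⊔ CK π (Kt π .v)).Normal := Subgroup.sup_normal _ _
  have hY2n : (rjT π .l (Kt π .l ⊔ CK π (Kt π .v)) (CK π (Kt π .v))).Normal :=
    rjT_normal π .l hYn _
  set C := CK π (Kt π .v) with hC
  set V0 := rjT π .v (Kt π .v) ⊥ with hV0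
  set Y0 := Kt π .l ⊔ C with hY0
  have hV0K : V0 ≤ Kt π .v := rjT_le π .v _ _
  have hKk : Kt π .v ≤ π.ker := Kt_le π .v
  have hwu : u * w * u⁻¹ ∈ V0 := hVn.conj_mem w hw u
  have hy' : u * w * u⁻¹ * w ∈ V0 := V0.mul_mem hwu hw
  have hw2 : w * w = 1 := st0.el w hw
  have hsw : s * w * s⁻¹ = w := by rw [← hws, mul_inv_cancel_right]
  have hsy : s * (u * w * u⁻¹ * w) * s⁻¹ = u * w * u⁻¹ * w := by
    have hsu : s * u * s⁻¹ = u := by rw [← hus, mul_inv_cancel_right]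
    calc s * (u * w * u⁻¹ * w) * s⁻¹
        = (s * u * s⁻¹) * (s * w * s⁻¹) * (s * u * s⁻¹)⁻¹ * (s * w * s⁻¹) := by group
      _ = _ := by rw [hsu, hsw]
  -- `y'` is in `Y2`
  have hY2 : u * w * u⁻¹ * w ∈ rjT π .l Y0 C := by
    refine ⟨st0.le hy', fun ψ hψ _ => ?_⟩
    have hwY : w ∈ Y0 := st0.le hw
    rw [hψ.mul _ (st0.le hwu) _ hwY, hψ.conj u w hwY, hπu]
    have e1 : act gs (ψ w) = ψ w := by
      rw [← hπs, ← hψ.conj s w hwY, hsw]
    have e2 : act gt (ψ w) = ψ w := by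
      have := g26_L (ψ w) (by rw [act_ML] at e1; exact e1)
      rw [act_ML]; exact this
    rw [e2, add_self]
  -- commutators with `KV0`
  have hcomm : ∀ k ∈ π.ker, ∀ v ∈ V0, ⁅k, v⁆ ∈ C := by
    intro k hk v hv
    let q := QuotientGroup.mk' C
    have hKer : π.ker ≤ (Subgroup.centralizer {q v}).comap q := by
      rw [st.dec]
      have hd : ∀ z : G, z ∈ C → z ∈ (Subgroup.centralizer {q v}).comap q := by
        intro z hz
        have h6 : q z = 1 := by
          rw [← MonoidHom.mem_ker, QuotientGroup.ker_mk']; exact hz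
        rw [Subgroup.mem_comap, h6]
        exact Subgroup.one_mem _
      have hcc : ∀ z : G, ⁅z, v⁆ ∈ C → z ∈ (Subgroup.centralizer {q v}).comap q := by
        intro z hz
        rw [Subgroup.mem_comap, Subgroup.mem_centralizer_singleton_iff]
        have h6 : q ⁅z, v⁆ = 1 := by
          rw [← MonoidHom.mem_ker, QuotientGroup.ker_mk']; exact hz
        rw [map_commutatorElement, commutatorElement_eq_one_iff_mul_comm] at h6
        exact h6
      refine sup_le (sup_le (sup_le ?_ ?_) ?_) ?_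
      · intro z hz
        apply hcc
        have h6 : ⁅v, z⁆ ∈ ⁅V0, Kt π .v⁆ := Subgroup.commutator_mem_commutator hv hz
        have h7 := ZK_le_CK π hKk (st.aZ (st0.kv h6))
        rw [← commutatorElement_inv]
        exact C.inv_mem h7
      · intro z hz
        apply hd
        rw [hC, mem_CK]
        refine ⟨fun y hy => ?_, Kt_le π .d hz⟩
        have h6 : ⁅y, z⁆ ∈ ⁅Kt π .v, Kt π .d⁆ := Subgroup.commutator_mem_commutator hy hz
        rw [st.cv, Subgroup.mem_bot] at h6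
        exact commutatorElement_eq_one_iff_mul_comm.mp h6
      · intro z hz
        apply hcc
        have h6 := st0.cl v hv z (Subgroup.mem_sup_left hz)
        rw [commutatorElement_eq_one_iff_mul_comm.mpr h6.symm]
        exact C.one_mem
      · intro z hz
        apply hd
        exact ZK_le_CK π hKk hz
    have h6 := hKer hk
    rw [Subgroup.mem_comap, Subgroup.mem_centralizer_singleton_iff] at h6
    have h7 : q ⁅k, v⁆ = 1 := by
      rw [map_commutatorElement, commutatorElement_eq_one_iff_mul_comm]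
      exact h6
    rwa [← MonoidHom.mem_ker, QuotientGroup.ker_mk'] at h7
  have huu : u * u ∈ π.ker := by
    rw [MonoidHom.mem_ker, map_mul, hπu, g26_gtgt]
  -- `ρ y' ρ⁻¹ y'⁻¹` is in `C`
  have hC1 : (u * w * u⁻¹ * w)⁻¹ * (ρ * (u * w * u⁻¹ * w) * ρ⁻¹) ∈ C := by
    apply hM
    · exact Subgroup.mul_mem _ (Subgroup.inv_mem _ hY2) (hY2n.conj_mem _ hY2 ρ)
    · intro χ hχ hχC
      rw [hχ.mul _ (Subgroup.inv_mem _ hY2) _ (hY2n.conj_mem _ hY2 ρ), hχ.map_inv hY2,
        hχ.conj ρ _ hY2, hρ.πρ]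
      have e1 : act gs (χ (u * w * u⁻¹ * w)) = χ (u * w * u⁻¹ * w) := by
        rw [← hπs, ← hχ.conj s _ hY2, hsy]
      have e2 : act gt (χ (u * w * u⁻¹ * w)) = χ (u * w * u⁻¹ * w) := by
        have e3 : χ (u * (u * w * u⁻¹ * w) * u⁻¹ * (u * w * u⁻¹ * w)) = 0 := by
          apply hχC
          have e4 : u * (u * w * u⁻¹ * w) * u⁻¹ * (u * w * u⁻¹ * w) =
              ⁅u * u, w⁆ * (w * w) := by
            have e5 : u * (u * w * u⁻¹ * w) * u⁻¹ * (u * w * u⁻¹ * w) =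
              u * u * w * u⁻¹ * (w * w) * u⁻¹ * w := by group
            rw [e5, hw2, commutatorElement_def]
            have e6 : w⁻¹ = w := inv_eq_of_mul_eq_one_left hw2
            rw [e6]
            group
          rw [e4, hw2, mul_one]
          exact hcomm _ huu w hw
        rw [hχ.mul _ (hY2n.conj_mem _ hY2 u) _ hY2, hχ.conj u _ hY2, hπu] at e3
        have e7 := eq_neg_of_add_eq_zero_left e3
        rw [e7, neg_eq]
      have e3 := g26_V (χ (u * w * u⁻¹ * w)) (by rw [act_MV] at e1; exact e1)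
        (by rw [act_MV] at e2; exact e2)
      have e4 : act gh (χ (u * w * u⁻¹ * w)) = χ (u * w * u⁻¹ * w) := by
        rcases e3 with e3 | e3
        · have e5 : χ (u * w * u⁻¹ * w) = 0 := e3
          rw [e5, act_zero]
        · rw [act_MV]
          have e5 : χ (u * w * u⁻¹ * w) = (![1, 0, 0, 0] : Fin 4 → ZMod 2) := e3
          rw [e5]
          exact g26_gh
      rw [e4, add_self]
  obtain ⟨c', hc', hcρ⟩ := g26_cop h4 hCn (g26_p2 hc.ker2 (CK_le π _)) hρ.r7 hC1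
  -- `x`
  have hx1 : x⁻¹ * (ρ * x * ρ⁻¹) ∈ V0 := by
    refine ⟨Subgroup.mul_mem _ (Subgroup.inv_mem _ hx) (hKn.conj_mem x hx ρ), fun φ hφ _ => ?_⟩
    rw [hφ.mul _ (Subgroup.inv_mem _ hx) _ (hKn.conj_mem x hx ρ), hφ.map_inv hx, hφ.conj ρ x hx,
      hρ.πρ]
    have e4 : act gh (φ x) = φ x := by
      rcases hφx φ hφ with e3 | e3
      · rw [e3, act_zero]
      · rw [e3, act_MV]
        exact g26_gh
    rw [e4, add_self]
  obtain ⟨k, hk, hkρ⟩ := g26_cop h4 hVn (g26_p2 hc.ker2 (hV0K.trans hKk)) hρ.r7 hx1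
  have hfin := g26_comm hc hρ.r7 hρ.πρ
    (π.ker.mul_mem (hKk (hV0K hy')) (CK_le π _ hc')) (π.ker.mul_mem (hKk hx) (hKk (hV0K hk)))
    hcρ hkρ
  -- commutation rules
  have c1 : ∀ z ∈ Kt π .v, z * c' = c' * z := fun z hz => (mem_CK.mp hc').1 z hz
  have c2 : k * (u * w * u⁻¹ * w) = (u * w * u⁻¹ * w) * k := st0.cl k hk _ (st0.le hy')
  set y := u * w * u⁻¹ * w with hy
  have e1 : y * c' * (x * k) = y * x * k * c' := by
    have : c' * (x * k) = (x * k) * c' := (c1 (x * k) (Subgroup.mul_mem _ hx (hV0K hk))).symm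
    rw [mul_assoc, this]; group
  have e2 : x * k * (y * c') = x * y * k * c' := by
    rw [mul_assoc x k, ← mul_assoc k y c', c2]; group
  rw [e1, e2] at hfin
  exact mul_right_cancel (mul_right_cancel hfin)

end G26

end Pool.Agent.A8
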